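import Pool.Agent.Lib.MP_c052b4_al.Mg.G070
import Pool.Agent.Lib.MP_c052b4_al.Mg.G075

/-!
# Interface: graded kernels, graded nilpotent matrices, regular coherence
-/

set_option autoImplicit false
set_option linter.unusedSectionVars false

namespace Pool.Agent.Lib.MP_c052b4_al

open Matrix

universe u v w w'

section G1

variable {R : Type u} [Ring R] {G : Type v} [Group G] {X : Type w} [MulAction G X]

/-- G1. Graded kernels over regular coherent stabilizers are perfect. -/
theorem perf_gker {ι : Type} [Fintype ι] {n : ℕ} (l : ι → X)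
    (M : Matrix ι (Fin n) (MonoidAlgebra R G))
    (h : ∀ i, RegCoh (MonoidAlgebra R (MulAction.stabilizer G (l i)))) :
    Perf (MonoidAlgebra R G) (gker l M) := perf_gker' l M h

/-- G2. Finite subsets of graded kernels over DP stabilizers lie in perfect submodules. -/
theorem dp_gker {ι : Type} [Fintype ι] {n : ℕ} (l : ι → X)
    (M : Matrix ι (Fin n) (MonoidAlgebra R G))
    (h : ∀ i, DPr (MonoidAlgebra R (MulAction.stabilizer G (l i))))
    (Φ : Set (ι → MonoidAlgebra R G)) (hΦ : Φ.Finite) (hΦ' : Φ ⊆ gker l M) :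
    ∃ F : Submodule (MonoidAlgebra R G) (ι → MonoidAlgebra R G),
      Φ ⊆ F ∧ F ≤ gker l M ∧ Perf (MonoidAlgebra R G) F := dp_gker' l M h Φ hΦ hΦ'

/-- N1. Nilpotent matrices which move the degrees in a uniquely determined way have trivial class
`[1 - N]`, if the stabilizers have the property DP. -/
theorem nil_graded {ι : Type} [Fintype ι] [DecidableEq ι] (l : ι → X)
    (N : Matrix ι ι (MonoidAlgebra R G)) (hN : IsNilpotent N)
    (hU : ∀ (k : ℕ) (ξ ξ' : X) (x : ι → MonoidAlgebra R G), cp l {ξ} x = x →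
      x ᵥ* N ^ (k + 1) = 0 → cp l {ξ'} (x ᵥ* N) ᵥ* N ^ k = 0)
    (h : ∀ i, DPr (MonoidAlgebra R (MulAction.stabilizer G (l i)))) : kk (-N) = 0 :=
  nil_graded' l N hN hU h

/-- W1. Regular coherence passes to subgroups. -/
theorem RegCoh.of_injective {H : Type v} [Group H] (f : H →* G) (hf : Function.Injective f)
    (h : RegCoh (MonoidAlgebra R G)) : RegCoh (MonoidAlgebra R H) := h.of_injective' f hf

/-- W2. Regular coherent rings have the property DP. -/
theorem RegCoh.dpr {C : Type u} [Ring C] (h : RegCoh C) : DPr C := h.dpr'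

/-- W3. DP passes to directed unions of groups. -/
theorem dpr_of_directed (S : Set (Subgroup G)) (hS : S.Nonempty) (hdir : DirectedOn (· ≤ ·) S)
    (hcov : ∀ g : G, ∃ H ∈ S, g ∈ H) (h : ∀ H ∈ S, DPr (MonoidAlgebra R H)) :
    DPr (MonoidAlgebra R G) := dpr_of_directed' S hS hdir hcov h

/-- W4. The trivial group. -/
theorem regCoh_of_subsingleton (hR : IsRegularRing R) [Subsingleton G] :
    RegCoh (MonoidAlgebra R G) := regCoh_of_subsingleton' hR

end G1

end Pool.Agent.Lib.MP_c052b4_al
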