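import Mathlib

/-!
# Group actions on trees
-/

set_option autoImplicit false

namespace Pool.Agent.Lib.MP_c052b4_al

universe v w

/-- The structure of a tree on the `G`-set `V`, on which `G` acts by automorphisms and without
inversions: no element of `G` interchanges the ends of an edge. -/
structure TreeAction (G : Type v) [Group G] (V : Type w) [MulAction G V] where
  graph : SimpleGraph V
  tree : graph.IsTree
  adj_smul : ∀ (g : G) (x y : V), graph.Adj x y → graph.Adj (g • x) (g • y)
  no_inversion : ∀ (g : G) (x y : V), graph.Adj x y → g • x = y → g • y ≠ x

end Pool.Agent.Lib.MP_c052b4_al
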