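import Pool.Agent.Lib.MP_c052b4_al.Mg.G072

/-!
# The assembly map in degree one for commutative rings with `K₀(R) = ℤ`
-/

set_option autoImplicit false

namespace Pool.Agent.Lib.MP_c052b4_al

open Matrix

universe u v w

section Inj

theorem groupCls_of (R : Type u) [Ring R] (G : Type v) [Group G] (g : G) :
    groupCls R G (Additive.ofMul (Abelianization.of g)) = k1Cls (unitMat (gU R g)) := by
  have h : (MonoidAlgebra.of R G).toHomUnits g = gU R g := by
    apply Units.ext
    rfl
  change k1Cls (unitMat ((MonoidAlgebra.of R G).toHomUnits g)) = _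
  rw [h]

theorem exists_k1Cls {S : Type u} [Ring S] (x : K1Grp S) : ∃ (k : ℕ) (A : GLk S k), k1Cls A = x := by
  obtain ⟨k, A, hA⟩ := exists_kf (phi S x)
  refine ⟨k, A, ?_⟩
  apply phi_injective
  rw [phi_cls, hA]

theorem k1Map_cls {S : Type u} {T : Type v} [Ring S] [Ring T] (f : S →+* T) {k : ℕ}
    (A : GLk S k) : k1Map f (k1Cls A) = k1Cls (glMap f A) := by
  change (QuotientAddGroup.mk (freeMap f (gen A)) : FreeGL T ⧸ k1Rel T) = _
  rw [freeMap_gen]
  rfl

theorem glMap_unitMat {S : Type u} {T : Type v} [Ring S] [Ring T] (f : S →+* T) (u : Sˣ) :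
    glMap f (unitMat u) = unitMat (Units.map (f : S →* T) u) := by
  apply Units.ext
  refine Matrix.ext fun i j => ?_
  have hi : i = 0 := Subsingleton.elim _ _
  have hj : j = 0 := Subsingleton.elim _ _
  subst hi; subst hj
  change f (Matrix.scalar (Fin 1) (u : S) 0 0) = Matrix.scalar (Fin 1) (f (u : S)) 0 0
  simp

/-- The augmentation. -/
noncomputable def augG (R : Type u) [Ring R] (G : Type v) [Group G] : MonoidAlgebra R G →+* R :=
  MonoidAlgebra.liftNCRingHom (RingHom.id R) (1 : G →* R) (fun _ _ => Commute.one_right _)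

theorem augG_single {R : Type u} [Ring R] {G : Type v} [Group G] (g : G) (r : R) :
    augG R G (MonoidAlgebra.single g r) = r := by
  unfold augG
  change MonoidAlgebra.liftNC _ _ _ = _
  rw [MonoidAlgebra.liftNC_single]
  simp

theorem aug_base {R : Type u} [Ring R] {G : Type v} [Group G] (x : K1Grp R) :
    k1Map (augG R G) (k1Map (MonoidAlgebra.singleOneRingHom : R →+* MonoidAlgebra R G) x) = x := by
  obtain ⟨k, A, rfl⟩ := exists_k1Cls x
  rw [k1Map_cls, k1Map_cls]
  congr 1
  apply Units.ext
  refine Matrix.ext fun i j => ?_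
  exact augG_single _ _

theorem unitMat_one {S : Type u} [Ring S] : unitMat (1 : Sˣ) = 1 := by
  rw [unitMat, map_one]

theorem aug_group {R : Type u} [Ring R] {G : Type v} [Group G] (y : Additive (Abelianization G)) :
    k1Map (augG R G) (groupCls R G y) = 0 := by
  obtain ⟨z, rfl⟩ : ∃ z, Additive.ofMul z = y := ⟨y.toMul, rfl⟩
  obtain ⟨g, rfl⟩ := QuotientGroup.mk_surjective z
  change k1Map (augG R G) (groupCls R G (Additive.ofMul (Abelianization.of g))) = 0
  rw [groupCls_of, k1Map_cls, glMap_unitMat]
  have h : Units.map ((augG R G : MonoidAlgebra R G →+* R) : MonoidAlgebra R G →* R) (gU R g) = 1 := by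
    apply Units.ext
    exact augG_single _ _
  rw [h, unitMat_one, k1Cls_one]

/-- The determinant on the free group. -/
noncomputable def detFree (S : Type u) [CommRing S] : FreeGL S →+ Additive Sˣ :=
  FreeAbelianGroup.lift fun x => Additive.ofMul (Units.map (Matrix.detMonoidHom) x.2)

theorem detFree_gen {S : Type u} [CommRing S] {k : ℕ} (A : GLk S k) :
    detFree S (gen A) = Additive.ofMul (Units.map (Matrix.detMonoidHom) A) :=
  FreeAbelianGroup.lift_apply_of _ _

theorem detFree_rel {S : Type u} [CommRing S] : k1Rel S ≤ (detFree S).ker := by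
  unfold k1Rel
  rw [AddSubgroup.closure_le]
  rintro _ (⟨k, A, B, rfl⟩ | ⟨k, A, B, hAB, rfl⟩)
  · change detFree S _ = 0
    rw [map_sub, map_add, detFree_gen, detFree_gen, detFree_gen, map_mul, ofMul_mul, sub_self]
  · change detFree S _ = 0
    rw [map_sub, detFree_gen, detFree_gen, eq_stab hAB, sub_eq_zero]
    congr 1
    apply Units.ext
    change Matrix.det (((fromBlocks A.val 0 0 (1 : Matrix (Fin 1) (Fin 1) S)).submatrix
      finSumFinEquiv.symm finSumFinEquiv.symm)) = Matrix.det A.val
    rw [Matrix.det_submatrix_equiv_self, Matrix.det_fromBlocks_zero₂₁, Matrix.det_one, mul_one]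

/-- The determinant `K₁(S) → Sˣ`. -/
noncomputable def detK (S : Type u) [CommRing S] : K1Grp S →+ Additive Sˣ :=
  QuotientAddGroup.lift (k1Rel S) (detFree S) detFree_rel

theorem detK_unit {S : Type u} [CommRing S] (u : Sˣ) :
    detK S (k1Cls (unitMat u)) = Additive.ofMul u := by
  change detFree S (gen (unitMat u)) = _
  rw [detFree_gen]
  congr 1
  apply Units.ext
  change Matrix.det (Matrix.scalar (Fin 1) (u : S)) = u
  simp

/-- The map on group rings induced by the abelianization. -/
noncomputable def abG (R : Type u) [Ring R] (G : Type v) [Group G] :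
    MonoidAlgebra R G →+* MonoidAlgebra R (Abelianization G) :=
  MonoidAlgebra.mapDomainRingHom R (Abelianization.of : G →* Abelianization G)

theorem det_group {R : Type u} [CommRing R] {G : Type v} [Group G] (z : Abelianization G) :
    detK (MonoidAlgebra R (Abelianization G)) (k1Map (abG R G) (groupCls R G (Additive.ofMul z))) =
      Additive.ofMul (gU R z) := by
  obtain ⟨g, rfl⟩ := QuotientGroup.mk_surjective z
  change detK (MonoidAlgebra R (Abelianization G)) (k1Map (abG R G)
    (groupCls R G (Additive.ofMul (Abelianization.of g)))) = Additive.ofMul (gU R (Abelianization.of g))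
  rw [groupCls_of, k1Map_cls, glMap_unitMat, detK_unit]
  congr 1
  apply Units.ext
  change MonoidAlgebra.mapDomain _ (MonoidAlgebra.single g 1) = MonoidAlgebra.single _ 1
  rw [MonoidAlgebra.mapDomain_single]

/-- Injectivity of the assembly map for commutative rings with `K₀(R) = ℤ`. -/
theorem assemblyOne_injective (R : Type u) [CommRing R] [Nontrivial R] (G : Type v) [Group G] :
    Function.Injective (assemblyOne R G) := by
  rw [injective_iff_map_eq_zero]
  rintro ⟨x, y⟩ h
  have h0 : k1Map (MonoidAlgebra.singleOneRingHom : R →+* MonoidAlgebra R G) x +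
      groupCls R G y = 0 := h
  have h1 : x = 0 := by
    have h2 := congrArg (k1Map (augG R G)) h0
    rw [map_add, aug_base, aug_group, add_zero, map_zero] at h2
    exact h2
  subst h1
  rw [map_zero, zero_add] at h0
  obtain ⟨z, rfl⟩ : ∃ z, Additive.ofMul z = y := ⟨y.toMul, rfl⟩
  have h3 := det_group (R := R) z
  rw [h0, map_zero, map_zero] at h3
  have h4 : (gU R z : MonoidAlgebra R (Abelianization G)) = 1 :=
    congrArg Units.val (congrArg Additive.toMul h3).symm
  have h5 : (MonoidAlgebra.single z (1 : R) : MonoidAlgebra R (Abelianization G)) =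
      MonoidAlgebra.single 1 1 := h4
  have h6 : z = 1 := MonoidAlgebra.of_injective (R := R) h5
  rw [h6]
  rfl

/-- A free module: the class of the identity matrix. -/
theorem cls_one_nsmul (S : Type u) [Ring S] (k : ℕ) :
    KZero.cls (IdemMat.one S k) = k • KZero.cls (IdemMat.one S 1) := by
  induction k with
  | zero =>
    rw [zero_smul]
    have h : VMon.mk (IdemMat.one S 0) = 0 := by
      rw [VMon.zero_def, VMon.mk_eq_mk]
      refine ⟨(0 : Matrix (Fin 0) (Fin 0) S), (0 : Matrix (Fin 0) (Fin 0) S), ?_, ?_⟩ <;>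
        exact Matrix.ext fun i => Fin.elim0 i
    unfold KZero.cls
    rw [h, map_zero]
  | succ k ih =>
    rw [succ_nsmul, ← ih]
    unfold KZero.cls
    rw [← map_add]
    congr 1
    rw [VMon.mk_add_mk, VMon.mk_eq_mk]
    have h : ((IdemMat.one S k).add (IdemMat.one S 1)).mat =
        (1 : Matrix (Fin (k + 1)) (Fin (k + 1)) S) := by
      change (fromBlocks (1 : Matrix (Fin k) (Fin k) S) 0 0 (1 : Matrix (Fin 1) (Fin 1) S)).submatrix
        finSumFinEquiv.symm finSumFinEquiv.symm = 1
      rw [Matrix.fromBlocks_one, Matrix.submatrix_one_equiv]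
    rw [h]
    exact MvN.refl (IdemMat.one S (k + 1)).idem

theorem kzero_of_stablyFree {R : Type u} [CommRing R] (hR : ProjectivesStablyFree R)
    (e : IdemMat R) : ∃ n : ℤ, KZero.cls e = n • KZero.cls (IdemMat.one R 1) := by
  -- the module
  let f : (Fin e.size → R) →ₗ[R] (Fin e.size → R) := Matrix.toLin' e.mat
  have hf : f.comp f = f := by
    rw [← Matrix.toLin'_mul, e.idem]
  let P := LinearMap.range f
  have hfin : Module.Finite R P := Module.Finite.range f
  have hid : ∀ x : P, f x = x := by
    rintro ⟨_, y, rfl⟩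
    exact LinearMap.congr_fun hf y
  have hproj : Module.Projective R P := by
    refine Module.Projective.of_split (P.subtype) (f.rangeRestrict) ?_
    apply LinearMap.ext
    intro x
    exact Subtype.ext (hid x)
  obtain ⟨m, n, ⟨σ⟩⟩ := hR P hfin hproj
  -- the two maps
  let a : ((Fin e.size ⊕ Fin m) → R) →ₗ[R] (Fin n → R) :=
    (σ : (P × (Fin m → R)) →ₗ[R] (Fin n → R)) ∘ₗ
      ((f.rangeRestrict).prodMap LinearMap.id) ∘ₗ
        (LinearEquiv.sumArrowLequivProdArrow (Fin e.size) (Fin m) R R : _ →ₗ[R] _)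
  let b : (Fin n → R) →ₗ[R] ((Fin e.size ⊕ Fin m) → R) :=
    ((LinearEquiv.sumArrowLequivProdArrow (Fin e.size) (Fin m) R R).symm : _ →ₗ[R] _) ∘ₗ
      ((P.subtype).prodMap LinearMap.id) ∘ₗ
        (σ.symm : (Fin n → R) →ₗ[R] (P × (Fin m → R)))
  have hab : a ∘ₗ b = LinearMap.id := by
    apply LinearMap.ext
    intro x
    change σ ((f.rangeRestrict (σ.symm x).1), (σ.symm x).2) = x
    have h1 : f.rangeRestrict ((σ.symm x).1 : Fin e.size → R) = (σ.symm x).1 :=
      Subtype.ext (hid _)
    rw [h1]
    exact σ.apply_symm_apply x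
  have hba : b ∘ₗ a = Matrix.toLin' (fromBlocks e.mat 0 0 (1 : Matrix (Fin m) (Fin m) R)) := by
    apply LinearMap.ext
    intro x
    have h1 : σ.symm (a x) = (f.rangeRestrict (fun i => x (Sum.inl i)), fun i => x (Sum.inr i)) :=
      σ.symm_apply_apply _
    have h2 : b (a x) = (LinearEquiv.sumArrowLequivProdArrow (Fin e.size) (Fin m) R R).symm
        ((f.rangeRestrict (fun i => x (Sum.inl i)) : Fin e.size → R), fun i => x (Sum.inr i)) := by
      change (LinearEquiv.sumArrowLequivProdArrow (Fin e.size) (Fin m) R R).symm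
        (((σ.symm (a x)).1 : Fin e.size → R), (σ.symm (a x)).2) = _
      rw [h1]
    rw [LinearMap.comp_apply, h2]
    funext i
    rcases i with i | i
    · simp [f, Matrix.toLin'_apply, Matrix.mulVec, dotProduct, Fintype.sum_sum_type]
    · simp [Matrix.toLin'_apply, Matrix.mulVec, dotProduct, Fintype.sum_sum_type, Matrix.one_apply]
  have h : MvN (fromBlocks e.mat 0 0 (1 : Matrix (Fin m) (Fin m) R)) (1 : Matrix (Fin n) (Fin n) R) := by
    refine ⟨LinearMap.toMatrix' b, LinearMap.toMatrix' a, ?_, ?_⟩
    · rw [← LinearMap.toMatrix'_comp, hba, LinearMap.toMatrix'_toLin']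
    · rw [← LinearMap.toMatrix'_comp, hab, LinearMap.toMatrix'_id]
  have h3 : KZero.cls e + KZero.cls (IdemMat.one R m) = KZero.cls (IdemMat.one R n) := by
    unfold KZero.cls
    rw [← map_add]
    congr 1
    rw [VMon.mk_add_mk, VMon.mk_eq_mk]
    exact MvN.trans (e.add (IdemMat.one R m)).idem (IdemMat.one R n).idem
      (e.add_mvN (IdemMat.one R m)) h
  rw [cls_one_nsmul R m, cls_one_nsmul R n] at h3
  refine ⟨(n : ℤ) - m, ?_⟩
  rw [sub_smul, natCast_zsmul, natCast_zsmul, ← h3, add_sub_cancel_right]

theorem phi_unitMat {S : Type u} [Ring S] (u : Sˣ) : phi S (k1Cls (unitMat u)) = kf 1 (unitMat u) :=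
  phi_cls _

theorem elU_one {R : Type u} [Ring R] {G : Type v} [Group G] (g : G) :
    elU g (IdemMat.one R 1) = unitMat (gU R g) := by
  apply Units.ext
  change ((elU g (IdemMat.one R 1) : GLk (MonoidAlgebra R G) (IdemMat.one R 1).size) :
      Matrix (Fin (IdemMat.one R 1).size) (Fin (IdemMat.one R 1).size) (MonoidAlgebra R G)) = _
  rw [elMat_eq]
  have key : ∀ i j : Fin 1, elMat g (1 : Matrix (Fin 1) (Fin 1) R) i j =
      (unitMat (gU R g) : Matrix (Fin 1) (Fin 1) (MonoidAlgebra R G)) i j := by
    intro i j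
    have hi : i = 0 := Subsingleton.elim _ _
    have hj : j = 0 := Subsingleton.elim _ _
    subst hi; subst hj
    change MonoidAlgebra.single 1 ((1 - (1 : Matrix (Fin 1) (Fin 1) R)) 0 0) +
      MonoidAlgebra.single g ((1 : Matrix (Fin 1) (Fin 1) R) 0 0) =
        Matrix.scalar (Fin 1) (MonoidAlgebra.single g (1 : R)) 0 0
    simp
  exact Matrix.ext fun i j => key i j

/-- The range of the explicit assembly map. -/
theorem imA_eq_range {R : Type u} [CommRing R] (hR : ProjectivesStablyFree R) (G : Type v)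
    [Group G] : imA R G = (assemblyOne R G).range := by
  apply le_antisymm
  · unfold imA
    refine sup_le ?_ ?_
    · rintro _ ⟨x, rfl⟩
      refine ⟨(x, 0), ?_⟩
      change k1Map _ x + groupCls R G 0 = _
      rw [map_zero, add_zero]
    · rw [AddSubgroup.closure_le]
      rintro _ ⟨g, k, e, A, he, hA, rfl⟩
      obtain ⟨n, hn⟩ := kzero_of_stablyFree hR ⟨k, e, he⟩
      refine ⟨(0, n • Additive.ofMul (Abelianization.of g)), ?_⟩
      have e0 : assemblyOne R G (0, n • Additive.ofMul (Abelianization.of g)) =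
        k1Map (MonoidAlgebra.singleOneRingHom : R →+* MonoidAlgebra R G) 0 +
          groupCls R G (n • Additive.ofMul (Abelianization.of g)) := rfl
      rw [e0, map_zero, zero_add, map_zsmul, groupCls_of]
      apply phi_injective
      rw [map_zsmul, phi_cls, phi_cls]
      have h1 : A = elU g ⟨k, e, he⟩ := by
        apply Units.ext
        rw [elMat_eq]
        exact hA
      have h2 := congrArg (tauG R g) hn
      rw [tauG_cls, map_zsmul, tauG_cls, elU_one] at h2
      rw [h1]
      exact h2.symm
  · rintro _ ⟨⟨x, y⟩, rfl⟩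
    change k1Map _ x + groupCls R G y ∈ _
    refine AddSubgroup.add_mem _ (AddSubgroup.mem_sup_left ⟨x, rfl⟩) ?_
    obtain ⟨z, rfl⟩ : ∃ z, Additive.ofMul z = y := ⟨y.toMul, rfl⟩
    obtain ⟨g, rfl⟩ := QuotientGroup.mk_surjective z
    apply AddSubgroup.mem_sup_right
    apply AddSubgroup.subset_closure
    refine ⟨g, 1, 1, unitMat (gU R g), by rw [one_mul], ?_, ?_⟩
    · rw [← elU_one]
      exact elMat_eq g (IdemMat.one R 1)
    · exact groupCls_of R G g

/-- **Bijectivity.** -/
theorem assemblyOne_bijective {R : Type u} [CommRing R] [Nontrivial R]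
    (hR : ProjectivesStablyFree R) {G : Type v} [Group G] (h : imA R G = ⊤) :
    Function.Bijective (assemblyOne R G) := by
  refine ⟨assemblyOne_injective R G, ?_⟩
  rw [← AddMonoidHom.range_eq_top, ← imA_eq_range hR, h]

end Inj

end Pool.Agent.Lib.MP_c052b4_al
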