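import Pool.Agent.Lib.MP_c052b4_al.Mg.G068

/-!
# Regular coherent rings: finitely presented modules
-/

set_option autoImplicit false

namespace Pool.Agent.Lib.MP_c052b4_al

open Matrix

universe u v

theorem regCoh_of_finitePresentation {C : Type u} [Ring C]
    (h : ∀ (M : Type u) [AddCommGroup M] [Module C M], Module.FinitePresentation C M →
      ∃ d : ℕ, FinProjRes C d M) : RegCoh C := by
  intro m n M
  let f : (Fin m → C) →ₗ[C] (Fin n → C) := Matrix.vecMulLinear M
  let Q := (Fin n → C) ⧸ LinearMap.range f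
  have hfg : (LinearMap.range f).FG := by
    rw [LinearMap.range_eq_map]
    exact Submodule.FG.map f (Module.Finite.fg_top)
  have hQ : Module.FinitePresentation C Q :=
    Module.finitePresentation_of_surjective (LinearMap.range f).mkQ
      (Submodule.mkQ_surjective _) (by rwa [Submodule.ker_mkQ])
  obtain ⟨d, hd⟩ := h Q hQ
  have h1 : HasRes (RingHom.id C) (d + 2) Q := hd.hasRes.mono (by omega)
  have h2 : HasRes (RingHom.id C) (d + 1) (LinearMap.ker (LinearMap.range f).mkQ) :=
    HasRes.ker h1 _ (Submodule.mkQ_surjective _)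
  have h3 : HasRes (RingHom.id C) (d + 1) (LinearMap.range f) :=
    h2.congr (LinearEquiv.ofEq _ _ (Submodule.ker_mkQ _))
  have h4 : HasRes (RingHom.id C) d (LinearMap.ker f.rangeRestrict) :=
    HasRes.ker h3 f.rangeRestrict f.surjective_rangeRestrict
  exact ⟨d, h4.congr (LinearEquiv.ofEq _ _ f.ker_rangeRestrict)⟩

end Pool.Agent.Lib.MP_c052b4_al
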