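import Pool.Agent.Lib.MP_c052b4_al.Mg.G068

/-!
# Classes of homogeneous matrices in `K₁`: vertex parts with constant idempotents
-/

set_option autoImplicit false
set_option linter.unusedSectionVars false

namespace Pool.Agent.Lib.MP_c052b4_al

open Matrix Kern

universe u v w w'

variable {R : Type u} [Ring R] {G : Type v} [Group G] {V : Type w} [MulAction G V]

/-- The class of a homogeneous invertible matrix comes from the stabilizers. -/
theorem k1_hg_mem {ι : Type} [Fintype ι] [DecidableEq ι] (l : ι → V)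
    (M : (Matrix ι ι (MonoidAlgebra R G))ˣ) (hM : Hg l l id (M : Matrix ι ι (MonoidAlgebra R G)))
    (hV : ∀ v : V, imA1 R (MulAction.stabilizer G v) = ⊤) : k1 M ∈ imA1 R G := by
  classical
  obtain ⟨ρ, γ, h1, h2⟩ := exists_reps G V
  let Γ : (Matrix ι ι (MonoidAlgebra R G))ˣ := dg R (γ ∘ l)
  have h3 : k1 (Γ⁻¹ * M * Γ) = k1 M := by
    rw [k1_mul, k1_mul, k1_inv]
    abel
  rw [← h3]
  have h4 : Hg (ρ ∘ l) (ρ ∘ l) id (((Γ⁻¹ * M * Γ : (Matrix ι ι (MonoidAlgebra R G))ˣ)) :
      Matrix ι ι (MonoidAlgebra R G)) := hg_dg h1 hM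
  have h5 : ∀ i j g, ((((Γ⁻¹ * M * Γ : (Matrix ι ι (MonoidAlgebra R G))ˣ)) :
      Matrix ι ι (MonoidAlgebra R G)) i j).coeff g ≠ 0 →
      g • ρ (l j) = ρ (l i) := fun i j g hg => h4 i j g hg
  refine k1_mem_of_blocks _ (ρ ∘ l) _ ?_ ?_
  · intro i j hij
    ext g
    by_contra hg
    exact hij (reps_eq h1 h2 (h5 i j g hg)).symm
  · intro μ _ _ f hf hc hr N hN
    by_cases hμ : IsEmpty μ
    · have h6 : N = 1 := Units.ext (Matrix.ext fun i => isEmptyElim i)
      rw [h6, k1_one]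
      exact AddSubgroup.zero_mem _
    rw [not_isEmpty_iff] at hμ
    obtain ⟨x0⟩ := hμ
    obtain ⟨N0, hN0⟩ := exists_unit_lift (MulAction.stabilizer G (ρ (l (f x0)))) N (by
      intro i j g hg
      rw [hN] at hg
      have h6 := h5 _ _ _ hg
      have e1 : ρ (l (f j)) = ρ (l (f x0)) := hc j x0
      have e2 : ρ (l (f i)) = ρ (l (f x0)) := hc i x0
      rw [e1, e2] at h6
      exact h6)
    rw [← hN0, ← KOne.map_k1]
    apply map_imA1
    rw [hV]
    trivial

/-- Constant matrices commute with group elements. -/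
theorem single_mul_cG (g : G) (r : R) :
    MonoidAlgebra.single g (1 : R) * cG R G r = cG R G r * MonoidAlgebra.single g 1 :=
  gU_comm g r

/-- Block idempotents over `R` commute with diagonal matrices of group elements. -/
theorem dg_comm {m : Type} [Fintype m] [DecidableEq m] {Q : Type*} {L : m → Q} (γ : Q → G)
    {P0 : Matrix m m R} (hL : ∀ i j, P0 i j ≠ 0 → L i = L j) :
    ((dg R (γ ∘ L) : (Matrix m m (MonoidAlgebra R G))ˣ) : Matrix m m (MonoidAlgebra R G)) *
      P0.map (cG R G) = P0.map (cG R G) *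
      ((dg R (γ ∘ L) : (Matrix m m (MonoidAlgebra R G))ˣ) : Matrix m m (MonoidAlgebra R G)) := by
  classical
  refine Matrix.ext fun i j => ?_
  rw [coe_dg, Matrix.diagonal_mul, Matrix.mul_diagonal, Matrix.map_apply]
  by_cases h : P0 i j = 0
  · rw [h, map_zero, mul_zero, zero_mul]
  · change MonoidAlgebra.single (γ (L i)) (1 : R) * cG R G (P0 i j) =
      cG R G (P0 i j) * MonoidAlgebra.single (γ (L j)) 1
    rw [hL i j h, single_mul_cG]

theorem dg_mul {m : Type} [Fintype m] [DecidableEq m] (u u' : m → G) :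
    (dg R u * dg R u' : (Matrix m m (MonoidAlgebra R G))ˣ) = dg R (u * u') := by
  apply Units.ext
  rw [Units.val_mul, coe_dg, coe_dg, coe_dg, Matrix.diagonal_mul_diagonal]
  congr 1
  funext i
  rw [MonoidAlgebra.single_mul_single, mul_one]
  rfl

theorem dg_one {m : Type} [Fintype m] [DecidableEq m] :
    (dg R (1 : m → G) : (Matrix m m (MonoidAlgebra R G))ˣ) = 1 := by
  apply Units.ext
  rw [coe_dg, Units.val_one, ← Matrix.diagonal_one]
  rfl

/-- The unit `1 + (Γ - 1) P`. -/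
theorem te_dg_mul {m : Type} [Fintype m] [DecidableEq m] {Q : Type*} {L : m → Q} (γ γ' : Q → G)
    {P0 : Matrix m m R} (hP : P0 * P0 = P0) (hL : ∀ i j, P0 i j ≠ 0 → L i = L j) :
    (1 + (((dg R (γ ∘ L) : (Matrix m m (MonoidAlgebra R G))ˣ) :
      Matrix m m (MonoidAlgebra R G)) - 1) * P0.map (cG R G)) *
    (1 + (((dg R (γ' ∘ L) : (Matrix m m (MonoidAlgebra R G))ˣ) :
      Matrix m m (MonoidAlgebra R G)) - 1) * P0.map (cG R G)) =
    1 + (((dg R ((γ * γ') ∘ L) : (Matrix m m (MonoidAlgebra R G))ˣ) :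
      Matrix m m (MonoidAlgebra R G)) - 1) * P0.map (cG R G) := by
  set P := P0.map (cG R G) with hPdef
  have hPP : P * P = P := by
    rw [hPdef, ← Matrix.map_mul, hP]
  set D := ((dg R (γ ∘ L) : (Matrix m m (MonoidAlgebra R G))ˣ) :
      Matrix m m (MonoidAlgebra R G)) with hD
  set D' := ((dg R (γ' ∘ L) : (Matrix m m (MonoidAlgebra R G))ˣ) :
      Matrix m m (MonoidAlgebra R G)) with hD'
  have h1 : D' * P = P * D' := dg_comm γ' hL
  have h2 : ((dg R ((γ * γ') ∘ L) : (Matrix m m (MonoidAlgebra R G))ˣ) :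
      Matrix m m (MonoidAlgebra R G)) = D * D' := by
    have h3 := congrArg Units.val (dg_mul (R := R) (γ ∘ L) (γ' ∘ L))
    rw [Units.val_mul] at h3
    exact h3.symm
  rw [h2]
  have h3 : (D - 1) * P * ((D' - 1) * P) = (D - 1) * (D' - 1) * P := by
    rw [Matrix.mul_assoc, ← Matrix.mul_assoc P, Matrix.mul_sub P, ← h1, Matrix.mul_one,
      Matrix.sub_mul (D' * P), Matrix.mul_assoc D', hPP, Matrix.mul_assoc, Matrix.sub_mul D',
      Matrix.one_mul]
  rw [Matrix.add_mul, Matrix.mul_add, Matrix.mul_add, h3]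
  simp only [Matrix.one_mul, Matrix.mul_one, Matrix.sub_mul, Matrix.mul_sub]
  abel

/-- The class of `1 + (Γ - 1) P`. -/
theorem exists_te_dg {m : Type} [Fintype m] [DecidableEq m] {Q : Type*} (L : m → Q) (γ : Q → G)
    {P0 : Matrix m m R} (hP : P0 * P0 = P0) (hL : ∀ i j, P0 i j ≠ 0 → L i = L j) :
    ∃ U : (Matrix m m (MonoidAlgebra R G))ˣ, (U : Matrix m m (MonoidAlgebra R G)) =
      1 + (((dg R (γ ∘ L) : (Matrix m m (MonoidAlgebra R G))ˣ) :
      Matrix m m (MonoidAlgebra R G)) - 1) * P0.map (cG R G) ∧ k1 U ∈ imA1 R G := by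
  classical
  have e1 := te_dg_mul (R := R) γ γ⁻¹ hP hL
  have e2 := te_dg_mul (R := R) γ⁻¹ γ hP hL
  have e3 : ((dg R ((1 : Q → G) ∘ L) : (Matrix m m (MonoidAlgebra R G))ˣ) :
      Matrix m m (MonoidAlgebra R G)) = 1 := congrArg Units.val (dg_one (R := R) (m := m))
  rw [mul_inv_cancel, e3, sub_self, Matrix.zero_mul, add_zero] at e1
  rw [inv_mul_cancel, e3, sub_self, Matrix.zero_mul, add_zero] at e2
  let U : (Matrix m m (MonoidAlgebra R G))ˣ := ⟨_, _, e1, e2⟩
  refine ⟨U, rfl, ?_⟩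
  have hU : ∀ i j, (U : Matrix m m (MonoidAlgebra R G)) i j =
      (1 : Matrix m m (MonoidAlgebra R G)) i j +
      (MonoidAlgebra.single (γ (L i)) 1 - 1) * cG R G (P0 i j) := by
    intro i j
    change (1 : Matrix m m (MonoidAlgebra R G)) i j + _ = _
    rw [Matrix.sub_mul, Matrix.one_mul, Matrix.sub_apply, coe_dg, Matrix.diagonal_mul, sub_mul,
      one_mul]
    rfl
  refine k1_mem_of_blocks _ L U ?_ ?_
  · intro i j hij
    have h1 : i ≠ j := fun h => hij (congrArg L h)
    have h2 : P0 i j = 0 := by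
      by_contra h
      exact hij (hL i j h)
    rw [hU, Matrix.one_apply_ne h1, h2, map_zero, mul_zero, add_zero]
  · intro μ _ _ f hf hc hr N hN
    by_cases hμ : IsEmpty μ
    · have h6 : N = 1 := Units.ext (Matrix.ext fun i => isEmptyElim i)
      rw [h6, k1_one]
      exact AddSubgroup.zero_mem _
    rw [not_isEmpty_iff] at hμ
    obtain ⟨x0⟩ := hμ
    have hP' : P0.submatrix f f * P0.submatrix f f = P0.submatrix f f := by
      refine Matrix.ext fun x y => ?_
      rw [Matrix.mul_apply]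
      conv_rhs => rw [← hP]
      rw [Matrix.submatrix_apply, Matrix.mul_apply]
      have h7 : ∑ z : μ, P0.submatrix f f x z * P0.submatrix f f z y =
          ∑ i ∈ Finset.univ.map ⟨f, hf⟩, P0 (f x) i * P0 i (f y) := by
        rw [Finset.sum_map]
        rfl
      rw [h7]
      refine Finset.sum_subset (Finset.subset_univ _) fun i _ hi => ?_
      have h8 : P0 (f x) i = 0 := by
        by_contra h9
        obtain ⟨z, hz⟩ := hr x i (hL _ _ h9).symm
        exact hi (Finset.mem_map.2 ⟨z, Finset.mem_univ _, hz⟩)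
      rw [h8, zero_mul]
    have h10 : N = teU (gU R (γ (L (f x0)))) (gU_comm _) (P0.submatrix f f) hP' := by
      apply Units.ext
      rw [hN]
      refine Matrix.ext fun x y => ?_
      rw [Matrix.submatrix_apply, hU]
      change _ = (1 : Matrix μ μ (MonoidAlgebra R G)) x y +
        (MonoidAlgebra.single (γ (L (f x0))) 1 - 1) * cG R G (P0 (f x) (f y))
      rw [show L (f x) = L (f x0) from hc x x0]
      congr 1
      by_cases hxy : x = y
      · subst hxy
        rw [Matrix.one_apply_eq, Matrix.one_apply_eq]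
      · rw [Matrix.one_apply_ne hxy, Matrix.one_apply_ne (fun h => hxy (hf h))]
    rw [h10, ← ks_te (gU R (γ (L (f x0)))) (gU_comm _) hP',
      ← tau_kc (gU R (γ (L (f x0)))) (gU_comm _) hP']
    exact tauG_mem_imA1 _ _

/-- Diagonal matrices of group elements. -/
theorem k1_dg_mem {ι : Type} [Fintype ι] [DecidableEq ι] (u : ι → G) :
    k1 (dg R u : (Matrix ι ι (MonoidAlgebra R G))ˣ) ∈ imA1 R G := by
  obtain ⟨U, hU, h1⟩ := exists_te_dg (R := R) (P0 := (1 : Matrix ι ι R)) (id : ι → ι) u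
    (Matrix.one_mul _) (fun i j h => by
      by_contra h'
      exact h (Matrix.one_apply_ne h'))
  have h2 : U = dg R u := by
    apply Units.ext
    rw [hU, KZero.map_one_mat, Matrix.mul_one, Function.comp_id]
    abel
  rw [← h2]
  exact h1

/-- transport of units along rectangular matrices -/
def rectU {S : Type*} [Ring S] {m n : Type*} [Fintype m] [Fintype n] [DecidableEq m]
    [DecidableEq n] (b : Matrix m n S) (b' : Matrix n m S) (h1 : b * b' = 1) (h2 : b' * b = 1)
    (N : (Matrix n n S)ˣ) : (Matrix m m S)ˣ where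
  val := b * (N : Matrix n n S) * b'
  inv := b * ((N⁻¹ : (Matrix n n S)ˣ) : Matrix n n S) * b'
  val_inv := by
    have h3 : b * (N : Matrix n n S) * b' * (b * ((N⁻¹ : (Matrix n n S)ˣ) : Matrix n n S) * b') =
        b * (N : Matrix n n S) * (b' * b) * ((N⁻¹ : (Matrix n n S)ˣ) : Matrix n n S) * b' := by
      simp only [Matrix.mul_assoc]
    rw [h3, h2, Matrix.mul_one, Matrix.mul_assoc b, Units.mul_inv, Matrix.mul_one, h1]
  inv_val := by
    have h3 : b * ((N⁻¹ : (Matrix n n S)ˣ) : Matrix n n S) * b' * (b * (N : Matrix n n S) * b') =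
        b * ((N⁻¹ : (Matrix n n S)ˣ) : Matrix n n S) * (b' * b) * (N : Matrix n n S) * b' := by
      simp only [Matrix.mul_assoc]
    rw [h3, h2, Matrix.mul_one, Matrix.mul_assoc b, Units.inv_mul, Matrix.mul_one, h1]

theorem k1_rectU {S : Type u} [Ring S] {m n : Type*} [Fintype m] [Fintype n] [DecidableEq m]
    [DecidableEq n] (b : Matrix m n S) (b' : Matrix n m S) (h1 : b * b' = 1) (h2 : b' * b = 1)
    (N : (Matrix n n S)ˣ) : k1 (rectU b b' h1 h2 N) = k1 N :=
  k1_conj_rect b b' h1 h2 N _ rfl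

/-- The inverse of a homogeneous matrix is homogeneous. -/
theorem hg_inv {m κ : Type} [Fintype m] [Fintype κ] [DecidableEq m] [DecidableEq κ] {L : m → V}
    {lV : κ → V} {X : Matrix m κ (MonoidAlgebra R G)} {Y : Matrix κ m (MonoidAlgebra R G)}
    (hX : Hg L lV id X) (hXY : Hg L L id (X * Y)) (hYX : Y * X = 1) : Hg lV L id Y := by
  set Z := rp lV L (fun x y => y = id x) Y with hZ
  have h0 : ∀ (ξ : V) (x : κ → MonoidAlgebra R G), cp lV {ξ} x = x →
      x ᵥ* Z = cp L {ξ} (x ᵥ* Y) := by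
    intro ξ x hx
    exact rp_vecMul (P := fun x y => y = id x) (fun g x y => by simp) Y hx
  have hid : ∀ (g : G) (x : V), id (g • x) = g • id x := fun _ _ => rfl
  have h1 : Z * X = 1 := by
    refine mat_ext_hom lV fun ξ x hx => ?_
    rw [← Matrix.vecMul_vecMul, h0 ξ x hx]
    have h2 := Hg.cp_vecMul hid hX {ξ} (x ᵥ* Y)
    rw [Matrix.vecMul_vecMul, hYX, Matrix.vecMul_one, Set.preimage_id, hx] at h2
    rw [Matrix.vecMul_one]
    exact h2.symm
  have h3 : Z * (X * Y) = Z := by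
    refine mat_ext_hom lV fun ξ x hx => ?_
    rw [← Matrix.vecMul_vecMul, h0 ξ x hx]
    have h2 := Hg.cp_vecMul hid hXY {ξ} (x ᵥ* Y)
    rw [Matrix.vecMul_vecMul, ← Matrix.mul_assoc, hYX, Matrix.one_mul, Set.preimage_id] at h2
    exact h2.symm
  rw [← Matrix.mul_assoc, h1, Matrix.one_mul] at h3
  rw [h3, hZ]
  exact hg_rp id Y

/-- The augmentation of a homogeneous matrix between representatives. -/
theorem hg_augm {ρ : V → V} {γ : V → G} (h1 : ∀ v, γ v • ρ v = v)
    (h2 : ∀ (g : G) v, ρ (g • v) = ρ v) {m κ : Type} {L : m → V} {l' : κ → V}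
    {X : Matrix m κ (MonoidAlgebra R G)} (hX : Hg (ρ ∘ L) (ρ ∘ l') id X) :
    Hg (ρ ∘ L) (ρ ∘ l') id ((X.map (augm R G)).map (cG R G)) := by
  classical
  intro i j g hg
  have h3 : g = 1 := by
    by_contra h
    apply hg
    change (MonoidAlgebra.single (1 : G) (augm R G (X i j))).coeff g = 0
    rw [MonoidAlgebra.coeff_single, Finsupp.single_apply, if_neg (fun h' => h h'.symm)]
  have h4 : X i j ≠ 0 := by
    intro h
    apply hg
    change (MonoidAlgebra.single (1 : G) (augm R G (X i j))).coeff g = 0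
    rw [h, map_zero, MonoidAlgebra.single_zero]
    rfl
  obtain ⟨k, hk⟩ : ∃ k, (X i j).coeff k ≠ 0 := by
    by_contra h
    push Not at h
    apply h4
    ext k
    exact h k
  have h5 := reps_eq h1 h2 (hX i j k hk)
  rw [h3, one_smul]
  exact h5

/-- The class of a homogeneous equivalence of a constant idempotent with a free module. -/
theorem k1_rel_mem {m κ n : Type} [Fintype m] [Fintype κ] [Fintype n] [DecidableEq m]
    [DecidableEq κ] [DecidableEq n] (L : m → V) (lV : κ → V) {P0 : Matrix m m R}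
    (hP : P0 * P0 = P0) (hL : ∀ i j, P0 i j ≠ 0 → L i = L j) (X : Matrix m κ (MonoidAlgebra R G))
    (Y : Matrix κ m (MonoidAlgebra R G)) (hX : Hg L lV id X) (hY : Hg lV L id Y)
    (hXY : X * Y = P0.map (cG R G)) (hYX : Y * X = 1) (J : Matrix n m R) (J' : Matrix m n R)
    (hJ : J * J' = 1) (hJ' : J' * J = P0) (T : Matrix n κ R) (T' : Matrix κ n R)
    (hT : T * T' = 1) (hT' : T' * T = 1) (U : (Matrix n n (MonoidAlgebra R G))ˣ)
    (hU : (U : Matrix n n (MonoidAlgebra R G)) = J.map (cG R G) * X * T'.map (cG R G))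
    (hV : ∀ v : V, imA1 R (MulAction.stabilizer G v) = ⊤) : k1 U ∈ imA1 R G := by
  classical
  obtain ⟨ρ, γ, h1, h2⟩ := exists_reps G V
  set c := cG R G with hc
  set Dm : (Matrix m m (MonoidAlgebra R G))ˣ := dg R (γ ∘ L) with hDm
  set Dk : (Matrix κ κ (MonoidAlgebra R G))ˣ := dg R (γ ∘ lV) with hDk
  set P := P0.map c with hPd
  have hPc : (Dm : Matrix m m (MonoidAlgebra R G)) * P = P * Dm := dg_comm γ hL
  set X2 := ((Dm⁻¹ : (Matrix m m (MonoidAlgebra R G))ˣ) : Matrix m m (MonoidAlgebra R G)) * X *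
    (Dk : Matrix κ κ (MonoidAlgebra R G)) with hX2d
  set Y2 := ((Dk⁻¹ : (Matrix κ κ (MonoidAlgebra R G))ˣ) : Matrix κ κ (MonoidAlgebra R G)) * Y *
    (Dm : Matrix m m (MonoidAlgebra R G)) with hY2d
  have hX2 : Hg (ρ ∘ L) (ρ ∘ lV) id X2 := hg_dg h1 hX
  have hY2 : Hg (ρ ∘ lV) (ρ ∘ L) id Y2 := hg_dg h1 hY
  have hXY2 : X2 * Y2 = P := by
    have e1 : X2 * Y2 = ((Dm⁻¹ : (Matrix m m (MonoidAlgebra R G))ˣ) :
        Matrix m m (MonoidAlgebra R G)) * (X * ((Dk : Matrix κ κ (MonoidAlgebra R G)) *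
        ((Dk⁻¹ : (Matrix κ κ (MonoidAlgebra R G))ˣ) : Matrix κ κ (MonoidAlgebra R G))) * Y) *
        (Dm : Matrix m m (MonoidAlgebra R G)) := by
      simp only [hX2d, hY2d, Matrix.mul_assoc]
    rw [e1, Units.mul_inv, Matrix.mul_one, hXY, Matrix.mul_assoc, ← hPc, ← Matrix.mul_assoc,
      Units.inv_mul, Matrix.one_mul]
  have hYX2 : Y2 * X2 = 1 := by
    have e1 : Y2 * X2 = ((Dk⁻¹ : (Matrix κ κ (MonoidAlgebra R G))ˣ) :
        Matrix κ κ (MonoidAlgebra R G)) * (Y * ((Dm : Matrix m m (MonoidAlgebra R G)) *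
        ((Dm⁻¹ : (Matrix m m (MonoidAlgebra R G))ˣ) : Matrix m m (MonoidAlgebra R G))) * X) *
        (Dk : Matrix κ κ (MonoidAlgebra R G)) := by
      simp only [hX2d, hY2d, Matrix.mul_assoc]
    rw [e1, Units.mul_inv, Matrix.mul_one, hYX, Matrix.mul_one, Units.inv_mul]
  set a := augm R G with ha
  have hac : ∀ {p q : Type} (M : Matrix p q R), (M.map c).map a = M := by
    intro p q M
    refine Matrix.ext fun i j => ?_
    exact augm_cG _
  set ξ := X2.map a with hξ
  set η := Y2.map a with hη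
  have hξη : ξ * η = P0 := by
    rw [hξ, hη, ← Matrix.map_mul, hXY2, hPd, hac]
  have hηξ : η * ξ = 1 := by
    rw [hξ, hη, ← Matrix.map_mul, hYX2, Matrix.map_one _ (map_zero a) (map_one a)]
  have hPX : P * X2 = X2 := by
    rw [← hXY2, Matrix.mul_assoc, hYX2, Matrix.mul_one]
  have hηP : η * P0 = η := by
    rw [← hξη, ← Matrix.mul_assoc, hηξ, Matrix.one_mul]
  have hPξ : P0 * ξ = ξ := by
    rw [← hξη, Matrix.mul_assoc, hηξ, Matrix.mul_one]
  have hmm : ∀ {p q r : Type} [Fintype q] (M : Matrix p q R) (N : Matrix q r R),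
      M.map c * N.map c = (M * N).map c := fun M N => (Matrix.map_mul).symm
  have h1c : ∀ {p : Type} [Fintype p] [DecidableEq p], (1 : Matrix p p R).map c = 1 :=
    KZero.map_one_mat c _
  let N : (Matrix κ κ (MonoidAlgebra R G))ˣ :=
    { val := η.map c * X2
      inv := Y2 * ξ.map c
      val_inv := by
        have e1 : η.map c * X2 * (Y2 * ξ.map c) = η.map c * (X2 * Y2) * ξ.map c := by
          simp only [Matrix.mul_assoc]
        rw [e1, hXY2, hPd, hmm, hmm, hηP, hηξ, h1c]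
      inv_val := by
        have e1 : Y2 * ξ.map c * (η.map c * X2) = Y2 * (ξ.map c * η.map c) * X2 := by
          simp only [Matrix.mul_assoc]
        rw [e1, hmm, hξη, ← hPd, Matrix.mul_assoc, hPX, hYX2] }
  have hNg : Hg (ρ ∘ lV) (ρ ∘ lV) id (N : Matrix κ κ (MonoidAlgebra R G)) := by
    have e1 := (hg_augm h1 h2 hY2).mul (fun _ _ => rfl) hX2
    exact e1
  have hN : k1 N ∈ imA1 R G := k1_hg_mem (ρ ∘ lV) N hNg hV
  have hS1 : J * ξ * (η * J') = 1 := by
    have e1 : J * ξ * (η * J') = J * (ξ * η) * J' := by simp only [Matrix.mul_assoc]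
    rw [e1, hξη, ← hJ']
    have e2 : J * (J' * J) * J' = (J * J') * (J * J') := by simp only [Matrix.mul_assoc]
    rw [e2, hJ, Matrix.one_mul]
  have hS2 : η * J' * (J * ξ) = 1 := by
    have e1 : η * J' * (J * ξ) = η * (J' * J) * ξ := by simp only [Matrix.mul_assoc]
    rw [e1, hJ', hηP, hηξ]
  set S := J * ξ with hS
  set S' := η * J' with hS'
  have hSc1 : S.map c * S'.map c = 1 := by rw [hmm, hS1, h1c]
  have hSc2 : S'.map c * S.map c = 1 := by rw [hmm, hS2, h1c]
  obtain ⟨W, hW, hWm⟩ := exists_te_dg (R := R) L γ hP hL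
  obtain ⟨W', hW', hWW⟩ := vas_unit (((Dm : Matrix m m (MonoidAlgebra R G)) - 1) * J'.map c)
    (J.map c) W (by
      rw [hW, Matrix.mul_assoc, hmm, hJ'])
  have hW'e : (W' : Matrix n n (MonoidAlgebra R G)) =
      J.map c * (Dm : Matrix m m (MonoidAlgebra R G)) * J'.map c := by
    rw [hW', ← Matrix.mul_assoc, Matrix.mul_sub, Matrix.mul_one, Matrix.sub_mul, hmm, hJ, h1c]
    abel
  let TT : (Matrix n n R)ˣ :=
    { val := S * T'
      inv := T * S'
      val_inv := by
        have e1 : S * T' * (T * S') = S * (T' * T) * S' := by simp only [Matrix.mul_assoc]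
        rw [e1, hT', Matrix.mul_one, hS1]
      inv_val := by
        have e1 : T * S' * (S * T') = T * (S' * S) * T' := by simp only [Matrix.mul_assoc]
        rw [e1, hS2, Matrix.mul_one, hT] }
  have key : U = W' * rectU _ _ hSc1 hSc2 N * rectU _ _ hSc1 hSc2 Dk⁻¹ * mU c TT := by
    apply Units.ext
    rw [Units.val_mul, Units.val_mul, Units.val_mul, hW'e, hU]
    change J.map c * X * T'.map c = J.map c * (Dm : Matrix m m (MonoidAlgebra R G)) * J'.map c *
      (S.map c * (η.map c * X2) * S'.map c) *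
      (S.map c * ((Dk⁻¹ : (Matrix κ κ (MonoidAlgebra R G))ˣ) : Matrix κ κ (MonoidAlgebra R G)) *
        S'.map c) * (S * T').map c
    have e1 : J.map c * (Dm : Matrix m m (MonoidAlgebra R G)) * J'.map c *
      (S.map c * (η.map c * X2) * S'.map c) *
      (S.map c * ((Dk⁻¹ : (Matrix κ κ (MonoidAlgebra R G))ˣ) : Matrix κ κ (MonoidAlgebra R G)) *
        S'.map c) * (S * T').map c = J.map c * (Dm : Matrix m m (MonoidAlgebra R G)) *
        (J'.map c * S.map c * η.map c) * X2 * (S'.map c * S.map c) *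
        ((Dk⁻¹ : (Matrix κ κ (MonoidAlgebra R G))ˣ) : Matrix κ κ (MonoidAlgebra R G)) *
        (S'.map c * (S * T').map c) := by
      simp only [Matrix.mul_assoc]
    have e2 : J'.map c * S.map c * η.map c = P := by
      rw [hmm, hmm, hS, ← Matrix.mul_assoc, hJ', hPξ, hξη]
    have e3 : S'.map c * (S * T').map c = T'.map c := by
      rw [hmm, ← Matrix.mul_assoc, hS2, Matrix.one_mul]
    rw [e1, e2, hSc2, e3, Matrix.mul_one, Matrix.mul_assoc (J.map c * _) P, hPX]
    have e4 : J.map c * (Dm : Matrix m m (MonoidAlgebra R G)) * X2 *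
        ((Dk⁻¹ : (Matrix κ κ (MonoidAlgebra R G))ˣ) : Matrix κ κ (MonoidAlgebra R G)) =
        J.map c * ((Dm : Matrix m m (MonoidAlgebra R G)) *
        ((Dm⁻¹ : (Matrix m m (MonoidAlgebra R G))ˣ) : Matrix m m (MonoidAlgebra R G))) * X *
        ((Dk : Matrix κ κ (MonoidAlgebra R G)) * ((Dk⁻¹ : (Matrix κ κ (MonoidAlgebra R G))ˣ) :
          Matrix κ κ (MonoidAlgebra R G))) := by
      simp only [hX2d, Matrix.mul_assoc]
    rw [e4, Units.mul_inv, Units.mul_inv, Matrix.mul_one, Matrix.mul_one]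
  rw [key, k1_mul, k1_mul, k1_mul, k1_rectU, k1_rectU, k1_inv, ← KOne.map_k1, hWW]
  refine AddSubgroup.add_mem _ (AddSubgroup.add_mem _ (AddSubgroup.add_mem _ hWm hN) ?_)
    (map_mem_imA1 _)
  exact AddSubgroup.neg_mem _ (k1_dg_mem _)

end Pool.Agent.Lib.MP_c052b4_al
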