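import Mathlib
import Mathlib.Algebra.MonoidAlgebra.MapDomain
import Mathlib.GroupTheory.FiniteAbelian.Basic
import Mathlib.GroupTheory.HNNExtension
import Mathlib.LinearAlgebra.Dimension.Free

/-!
# The main lemmas

`PAll`: graded kernels and nilpotent matrices; `K2`: the class of the vertex part;
`ZZ`: directed unions, the trivial group, products with the integers.
-/
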